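import Pool.Agent.Helper69.ES.Defs

/-!
# ES with a rate (v4). Definitions.
-/

open MeasureTheory Set Filter Topology
open Pool.Agent.Helper57.Zeta Pool.Agent.Helper57.PC Pool.Agent.Helper57.LH Pool.Agent.Helper78.SG
open Pool.Agent.Helper4.SH Pool.Agent.Helper69.PP Pool.Agent.Helper22.SI
open Pool.Agent.Helper69.SM (wt)

namespace Pool.Agent.Helper69.ES

/-- square integrability over the window -/
def L2W (g : TF) (H : ℝ → ℝ → ℝ) : Prop :=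
  ∃ C : ℝ, 0 < C ∧ ∀ᶠ x : ℝ in atTop, ∫ t, wt g.h x x t * H x t ^ 2 ≤ C * x

/-- law of large numbers on unions of cells, with a rate -/
def LLNr (F : ℝ → ℝ → ℝ) (m : ℝ → ℝ) : Prop :=
  ∃ C κ : ℝ, 0 < C ∧ 0 < κ ∧ ∀ K : ℝ, 1 ≤ K → ∀ᶠ x : ℝ in atTop, ∀ J : Finset ℕ, InW K x J →
    |(∫ t in St K 0 x J, F x t) - J.card * (K / Real.log x) * m x| ≤ C * K ^ (-κ) * x

open Classical in
/-- the diagonal at the small frequencies, with a rate -/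
def Dgr {ι : Type} (S : ℝ → Finset ι) (c : ℝ → ι → ℝ) (a b : ι → ℕ) : Prop :=
  ∃ C : ℝ, 0 < C ∧ ∀ θ : ℝ, 0 < θ → θ ≤ 1 → ∀ᶠ x : ℝ in atTop, ∑ i ∈ S x, ∑ j ∈ S x,
    (if cnd θ x (a i) (b i) (a j) (b j) then |c x i| * |c x j| else 0) ≤ C * θ

end Pool.Agent.Helper69.ES
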