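import Pool.Agent.Helper22.SI.Main
import Pool.Agent.Helper22.SI.Fin

/-!
# ES: close zeros in almost every stretch of `K` mean spacings (MP_8958e8). Definitions.

`x` is the height, the window is `[x, 2x]` (weight `wt g x x t`, equal to `1` on `[11x/8, 13x/8]`), the polynomials are those of
`Helper69/PQ` at scale `U = x^(1/2)`. Cells: intervals of length `K/log x`.
-/

open MeasureTheory Set Filter Topology
open Pool.Agent.Helper57.Zeta Pool.Agent.Helper57.PC Pool.Agent.Helper57.LH Pool.Agent.Helper78.SG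
open Pool.Agent.Helper4.SH Pool.Agent.Helper69.PP Pool.Agent.Helper22.SI
open Pool.Agent.Helper69.SM (wt)

namespace Pool.Agent.Helper69.ES

/-- left end of the cell `j` -/
noncomputable def lf (K x : ℝ) (j : ℕ) : ℝ := 11 * x / 8 + j * (K / Real.log x)

/-- the union of the cells with index in `J`, shortened by `D/log x` at both ends -/
def St (K D x : ℝ) (J : Finset ℕ) : Set ℝ :=
  ⋃ j ∈ J, Icc (lf K x j + D / Real.log x) (lf K x (j + 1) - D / Real.log x)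

/-- the cells lie in `[11x/8, 13x/8]` -/
def InW (K x : ℝ) (J : Finset ℕ) : Prop := ∀ j ∈ J, lf K x (j + 1) ≤ 13 * x / 8

/-- the cells contain no close zero -/
def Clear (c K x : ℝ) (J : Finset ℕ) : Prop :=
  ∀ j ∈ J, ∀ ρ : ZS, lf K x j ≤ (ρ : ℂ).im → (ρ : ℂ).im ≤ lf K x (j + 1) → ¬ SM.CloseC c x ρ

/-- the weights used: support `[-1/4, 1/4]`, values in `[0,1]`, equal to `1` on `[-1/8, 1/8]` -/
def GoodG (g : TF) : Prop :=
  g.th = 1 / 4 ∧ (∀ y, 0 ≤ g.h y) ∧ (∀ y, g.h y ≤ 1) ∧ ∀ y, |y| ≤ 1 / 8 → g.h y = 1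

/-- uniform integrability of `H` over the window `[x, 2x]` -/
def UIW (g : TF) (H : ℝ → ℝ → ℝ) : Prop :=
  (∃ C : ℝ, 0 < C ∧ ∀ᶠ x : ℝ in atTop, ∫ t, wt g.h x x t * |H x t| ≤ C * x) ∧
  ∀ ε : ℝ, 0 < ε → ∃ η : ℝ, 0 < η ∧ ∀ᶠ x : ℝ in atTop, ∀ B : Set ℝ, MeasurableSet B →
    volume B ≤ ENNReal.ofReal (η * x) → ∫ t in B, wt g.h x x t * |H x t| ≤ ε * x

/-- crude bound -/
def Crude (F : ℝ → ℝ → ℝ) : Prop :=
  ∃ κ C0 : ℝ, 0 < C0 ∧ κ < 1 ∧ ∀ᶠ x : ℝ in atTop, ∀ t, |F x t| ≤ C0 * x ^ κ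

/-- law of large numbers on unions of cells -/
def LLN (F : ℝ → ℝ → ℝ) (m : ℝ → ℝ) : Prop :=
  ∀ ε : ℝ, 0 < ε → ∃ K0 : ℝ, ∀ K : ℝ, K0 ≤ K → ∀ᶠ x : ℝ in atTop, ∀ J : Finset ℕ, InW K x J →
    |(∫ t in St K 0 x J, F x t) - J.card * (K / Real.log x) * m x| ≤ ε * x

/-- `F` smoothed at scale `1/log x` with the kernel whose Fourier transform is `h`: only the frequencies
`|ν| ≤ h.th * log x` survive -/
noncomputable def sm (h : TF) (F : ℝ → ℝ → ℝ) (x u : ℝ) : ℝ :=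
  Real.log x / (2 * Real.pi) * ∫ t, F x t * krs h.h 1 x (t - u)

/-- the pairs of frequencies `a/b`, `a'/b'` that meet on the diagonal; `a/b` is a small frequency `≠ 1` -/
def cnd (θ x : ℝ) (a b a' b' : ℕ) : Prop :=
  a ≠ b ∧ |Real.log a - Real.log b| ≤ θ * Real.log x ∧ (a * a' = b * b' ∨ a * b' = b * a')

open Classical in
/-- `F` is a trigonometric sum over fractions, with small diagonal at the small frequencies `≠ 0` -/
structure Rep {ι : Type} (F : ℝ → ℝ → ℝ) (S : ℝ → Finset ι) (c : ℝ → ι → ℝ) (a b : ι → ℕ) : Prop where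
  rep : ∀ᶠ x : ℝ in atTop, ∀ t, F x t = ∑ i ∈ S x, c x i * Real.cos (t * (Real.log (a i) - Real.log (b i)))
  mn : ∀ᶠ x : ℝ in atTop, ∀ i ∈ S x, 1 ≤ a i ∧ 1 ≤ b i ∧
    ((min (a i) (b i) : ℕ) : ℝ) ≤ x ^ ((1 : ℝ) / 2 - 1 / 8400)
  ab : ∀ᶠ x : ℝ in atTop, ∑ i ∈ S x, |c x i| ≤ x ^ (2 : ℝ)
  dg : ∀ ε : ℝ, 0 < ε → ∃ θ : ℝ, 0 < θ ∧ ∀ᶠ x : ℝ in atTop, ∑ i ∈ S x, ∑ j ∈ S x,
    (if cnd θ x (a i) (b i) (a j) (b j) then |c x i| * |c x j| else 0) ≤ ε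

/-! ### Number theory -/

/-- indices `((x, y), n)` -/
abbrev I3 : Type := ((ℕ × ℕ) × (ℕ × ℕ)) × ℕ

/-- numerator -/
def aq (i : I3) : ℕ := i.1.1.1 * i.1.2.2 * i.2

/-- denominator -/
def bq (i : I3) : ℕ := i.1.1.2 * i.1.2.1

/-- the indices -/
noncomputable def IQ (P : PQ.Par) (U : ℝ) : Finset I3 := (PQ.IX P U ×ˢ PQ.IX P U) ×ˢ Finset.Icc 1 ⌊U⌋₊

/-- the coefficients in absolute value -/
noncomputable def wq (U : ℝ) (i : I3) : ℝ :=
  |cfn i.1.1| * |cfn i.1.2| *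
    ((if i.2 = 1 then 1 else ArithmeticFunction.vonMangoldt i.2 / Real.log U) / Real.sqrt i.2)

/-- rough numbers `≤ Y`, prime factors `≥ T^δ` -/
noncomputable def RG (δ T Y : ℝ) : Finset ℕ :=
  open Classical in (Finset.Icc 1 ⌊Y⌋₊).filter (fun n => ∀ p ∈ n.primeFactors, T ^ δ ≤ (p : ℝ))

/-! ### Zero side -/

open Classical in
/-- the zeros in the shortened cells -/
noncomputable def IS (K D x : ℝ) (J : Finset ℕ) : Finset ZS :=
  (SM.ZJ x x).filter (fun ρ => (ρ : ℂ).im ∈ St K D x J)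

/-- the sum over these zeros -/
noncomputable def Zc (h : ℝ → ℝ) (K D x : ℝ) (J : Finset ℕ) (t : ℝ) : ℝ :=
  ∑ ρ ∈ IS K D x J, krs h 2 x (t - (ρ : ℂ).im)

open Classical in
/-- the zeros of the window at distance `> D/log x` from `t` -/
noncomputable def Far (h : ℝ → ℝ) (D x t : ℝ) : ℝ :=
  ∑ ρ ∈ SM.ZJ x x, if D < |t - (ρ : ℂ).im| * Real.log x then mx ρ * |kzs h 2 x t ρ| else 0

end Pool.Agent.Helper69.ES
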