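import Pool.Agent.Helper69.ES.Defs

/-!
# ES: easy facts
-/

open MeasureTheory Set Filter Topology
open Pool.Agent.Helper57.Zeta Pool.Agent.Helper57.PC Pool.Agent.Helper57.LH Pool.Agent.Helper78.SG
open Pool.Agent.Helper4.SH Pool.Agent.Helper69.PP Pool.Agent.Helper22.SI
open Pool.Agent.Helper69.SM (wt)

namespace Pool.Agent.Helper69.ES

theorem exists_gg : ∃ g : TF, GoodG g := by
  let B : ContDiffBump (0 : ℝ) := ⟨1 / 8, 1 / 4, by norm_num, by norm_num⟩
  refine ⟨⟨B, 1 / 4, B.contDiff, fun x => B.neg x, by norm_num, by norm_num, fun x hx => ?_⟩, rfl,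
    fun x => B.nonneg, fun x => B.le_one, fun y hy => ?_⟩
  · apply B.zero_of_le_dist
    rw [dist_zero_right, Real.norm_eq_abs]
    exact hx
  · apply B.one_of_mem_closedBall
    rw [Metric.mem_closedBall, dist_zero_right, Real.norm_eq_abs]
    exact hy

theorem exists_hh {θ : ℝ} (hθ : 0 < θ) : ∃ h : TF, h.th ≤ θ ∧ (∀ y, |h.h y| ≤ 1) ∧ h.h 0 = 1 := by
  obtain ⟨r, hr⟩ : ∃ r : ℝ, r = min θ (1 / 4) := ⟨_, rfl⟩
  have hr0 : 0 < r := by rw [hr]; exact lt_min hθ (by norm_num)
  have hr1 : r ≤ θ := by rw [hr]; exact min_le_left _ _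
  have hr2 : r ≤ 1 / 4 := by rw [hr]; exact min_le_right _ _
  let B : ContDiffBump (0 : ℝ) := ⟨r / 2, r, by linarith, by linarith⟩
  refine ⟨⟨B, r, B.contDiff, fun x => B.neg x, hr0, by linarith, fun x hx => ?_⟩, hr1, fun y => ?_, ?_⟩
  · apply B.zero_of_le_dist
    rw [dist_zero_right, Real.norm_eq_abs]
    exact hx
  · show |B y| ≤ 1
    rw [abs_of_nonneg B.nonneg]
    exact B.le_one
  · apply B.one_of_mem_closedBall
    rw [Metric.mem_closedBall, dist_self]
    exact (by linarith : (0 : ℝ) ≤ r / 2)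

theorem St_meas (K D x : ℝ) (J : Finset ℕ) : MeasurableSet (St K D x J) := by
  unfold St
  exact Finset.measurableSet_biUnion _ fun j _ => measurableSet_Icc

theorem lf_succ (K x : ℝ) (j : ℕ) : lf K x (j + 1) = lf K x j + K / Real.log x := by
  unfold lf
  push_cast
  ring

theorem lf_lt {K x : ℝ} (hK : 0 ≤ K / Real.log x) {i j : ℕ} (h : i < j) : lf K x (i + 1) ≤ lf K x j := by
  unfold lf
  have h1 : ((i + 1 : ℕ) : ℝ) ≤ j := by exact_mod_cast h
  have h2 := mul_le_mul_of_nonneg_right h1 hK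
  linarith

theorem St_vol {K D x : ℝ} (hx : 1 < x) (hD : 0 ≤ D) (hDK : 2 * D ≤ K) (J : Finset ℕ) :
    volume (St K D x J) = ENNReal.ofReal (J.card * ((K - 2 * D) / Real.log x)) := by
  have hL : 0 < Real.log x := Real.log_pos hx
  have hK0 : 0 ≤ K / Real.log x := div_nonneg (by linarith) hL.le
  have hD0 : 0 ≤ D / Real.log x := div_nonneg hD hL.le
  unfold St
  have hd : (J : Set ℕ).Pairwise (Function.onFun (AEDisjoint volume) fun j =>
      Icc (lf K x j + D / Real.log x) (lf K x (j + 1) - D / Real.log x)) := by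
    have key : ∀ i j : ℕ, i < j → volume (Icc (lf K x i + D / Real.log x) (lf K x (i + 1) - D / Real.log x) ∩
        Icc (lf K x j + D / Real.log x) (lf K x (j + 1) - D / Real.log x)) = 0 := by
      intro i j hij
      have h1 := lf_lt hK0 hij
      refine measure_mono_null (t := {lf K x j}) ?_ (measure_singleton _)
      rintro t ⟨⟨_, h2⟩, h3, _⟩
      rw [mem_singleton_iff]
      linarith
    intro i _ j _ hij
    rcases lt_or_gt_of_ne hij with h | h
    · exact key i j h
    · show volume (_ ∩ _) = 0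
      rw [inter_comm]
      exact key j i h
  rw [measure_biUnion_finset₀ hd (fun j _ => measurableSet_Icc.nullMeasurableSet)]
  have h1 : ∀ j ∈ J, volume (Icc (lf K x j + D / Real.log x) (lf K x (j + 1) - D / Real.log x)) =
      ENNReal.ofReal ((K - 2 * D) / Real.log x) := by
    intro j _
    rw [Real.volume_Icc, lf_succ]
    congr 1
    ring
  rw [Finset.sum_congr rfl h1, Finset.sum_const, nsmul_eq_mul, ENNReal.ofReal_mul (Nat.cast_nonneg _),
    ENNReal.ofReal_natCast]

theorem St_sub {K D x : ℝ} (hx : 1 < x) (hK : 0 ≤ K) (hD : 0 ≤ D) {J : Finset ℕ} (hJ : InW K x J) :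
    St K D x J ⊆ Icc (11 * x / 8) (13 * x / 8) := by
  have hL : 0 < Real.log x := Real.log_pos hx
  have hD0 : 0 ≤ D / Real.log x := div_nonneg hD hL.le
  intro t ht
  unfold St at ht
  rw [mem_iUnion₂] at ht
  obtain ⟨j, hj, h1, h2⟩ := ht
  have h3 := hJ j hj
  have h4 : 11 * x / 8 ≤ lf K x j := by
    unfold lf
    have : 0 ≤ (j : ℝ) * (K / Real.log x) := by positivity
    linarith
  constructor <;> linarith

theorem wt_one {g : TF} (hg : GoodG g) {x t : ℝ} (hx : 0 < x) (ht : t ∈ Icc (11 * x / 8) (13 * x / 8)) :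
    wt g.h x x t = 1 := by
  unfold SM.wt
  apply hg.2.2.2
  rw [abs_le]
  constructor
  · have : (3 : ℝ) / 8 ≤ (t - x) / x := by
      rw [le_div_iff₀ hx]
      linarith [ht.1]
    linarith
  · have : (t - x) / x ≤ (5 : ℝ) / 8 := by
      rw [div_le_iff₀ hx]
      linarith [ht.2]
    linarith

/-- few cells -/
theorem InW_card {K x : ℝ} (hx : 1 < x) (hK : 0 < K) {J : Finset ℕ} (hJ : InW K x J) :
    (J.card : ℝ) * (K / Real.log x) ≤ x / 4 := by
  have hL : 0 < Real.log x := Real.log_pos hx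
  have hK0 : 0 < K / Real.log x := div_pos hK hL
  rcases J.eq_empty_or_nonempty with rfl | hne
  · simp only [Finset.card_empty, Nat.cast_zero, zero_mul]
    linarith
  · have h1 : J ⊆ Finset.range (J.max' hne + 1) := by
      intro j hj
      exact Finset.mem_range.2 (Nat.lt_succ_of_le (J.le_max' j hj))
    have h2 := Finset.card_le_card h1
    rw [Finset.card_range] at h2
    have h3 := hJ _ (J.max'_mem hne)
    unfold lf at h3
    have h4 : (J.card : ℝ) ≤ ((J.max' hne + 1 : ℕ) : ℝ) := by exact_mod_cast h2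
    have h5 := mul_le_mul_of_nonneg_right h4 hK0.le
    linarith

/-- the measure of the union of the cells, as a real number -/
theorem St_real {K x : ℝ} (hx : 1 < x) (hK : 0 ≤ K) (J : Finset ℕ) :
    (volume (St K 0 x J)).toReal = J.card * (K / Real.log x) := by
  have hL : 0 < Real.log x := Real.log_pos hx
  rw [St_vol hx le_rfl (by linarith) J, mul_zero, sub_zero, ENNReal.toReal_ofReal (by positivity)]

/-- `wt` bounds the indicator of the cells -/
theorem ind_le_wt {g : TF} (hg : GoodG g) {K D x : ℝ} (hx : 1 < x) (hK : 0 ≤ K) (hD : 0 ≤ D) {J : Finset ℕ}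
    (hJ : InW K x J) (t : ℝ) : (St K D x J).indicator (fun _ => (1 : ℝ)) t ≤ wt g.h x x t := by
  by_cases h : t ∈ St K D x J
  · rw [indicator_of_mem h, wt_one hg (by linarith) (St_sub hx hK hD hJ h)]
  · rw [indicator_of_notMem h]
    exact hg.2.1 _

end Pool.Agent.Helper69.ES
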