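import Pool.Agent.Helper69.ES.CellsR
import Pool.Agent.Helper19.ESR.Every

/-!
# ES with a rate: assembly
-/

open MeasureTheory Set Filter Topology
open Pool.Agent.Helper57.Zeta Pool.Agent.Helper57.PC Pool.Agent.Helper57.LH Pool.Agent.Helper78.SG
open Pool.Agent.Helper4.SH Pool.Agent.Helper69.PP Pool.Agent.Helper22.SI
open Pool.Agent.Helper69.SM (wt)

namespace Pool.Agent.Helper69.ESR

open Pool.Agent.Helper69 Pool.Agent.Helper69.ES

/-- R3r: off a set of measure `C K^(-κ) X`, every `[x, x+H]`, `H ≥ K/log X`, contains `(κ/K) H log X` close zeros -/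
theorem every_rate : ∃ C κ : ℝ, 0 < C ∧ 0 < κ ∧ ∀ K : ℝ, 1 ≤ K → ∀ᶠ X : ℝ in atTop,
    volume {x : ℝ | x ∈ Icc X (2 * X) ∧ ∃ H : ℝ, K / Real.log X ≤ H ∧ H ≤ X ∧
      ∑ ρ ∈ UZ (17 / 25) x H, mx (ρ : ℂ) < κ / K * (H * Real.log X)} ≤ ENNReal.ofReal (C * K ^ (-κ) * X) :=
  Pool.Agent.Helper19.ESR.every_rate_of (fun {_} hc hc1 hcb hcb1 => bad_rate hc hc1 hcb hcb1)

end Pool.Agent.Helper69.ESR
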