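import Pool.Agent.Helper69.ES.Easy
import Pool.Agent.Helper69.ES.DefsR

/-!
# ES with a rate: main theorem on the cells
-/

open MeasureTheory Set Filter Topology
open Pool.Agent.Helper57.Zeta Pool.Agent.Helper57.PC Pool.Agent.Helper57.LH Pool.Agent.Helper78.SG
open Pool.Agent.Helper4.SH Pool.Agent.Helper69.PP Pool.Agent.Helper22.SI
open Pool.Agent.Helper69.SM (wt)
open scoped Interval

namespace Pool.Agent.Helper69.ES

/-- Mr: few clear cells, with a rate -/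
theorem cells_rate_of
    (part_rate : ∀ {c : ℝ}, 0 < c → ∀ (g f : TF), GoodG g → ∀ (F : ℝ → ℝ → ℝ), (∀ x, Continuous (F x)) →
      Crude F → L2W g (fun x t => |F x t| * (1 + |pss f.h 2 x t|)) →
      (∀ᶠ x : ℝ in atTop, ∀ γ : ℝ, ∫ t in (γ - SM.hw c x)..(γ + SM.hw c x), F x t = ∫ t, F x t * krs f.h 2 x (t - γ)) →
      ∃ C κ : ℝ, 0 < C ∧ 0 < κ ∧ ∀ K : ℝ, 1 ≤ K → ∀ᶠ x : ℝ in atTop, ∀ J : Finset ℕ, InW K x J → Clear c K x J →
        |(∑ ρ ∈ IS K (Real.sqrt K) x J, ∫ t in ((ρ : ℂ).im - SM.hw c x)..((ρ : ℂ).im + SM.hw c x), F x t) -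
          (f.h 0 * (∫ t in St K 0 x J, F x t) - ∫ t in St K 0 x J, F x t * pss f.h 2 x t)| ≤ C * K ^ (-κ) * x)
    (upper_cells : ∀ {c : ℝ}, 0 < c → ∀ {F : ℝ → ℝ}, Continuous F → (∀ t, 0 ≤ F t) → ∀ {K D x : ℝ}, 1 < x →
      0 ≤ K → Real.pi * c ≤ D → ∀ {J : Finset ℕ}, InW K x J → Clear c K x J →
      ∑ ρ ∈ IS K D x J, (∫ t in ((ρ : ℂ).im - SM.hw c x)..((ρ : ℂ).im + SM.hw c x), F t) ≤ ∫ t in St K 0 x J, F t)
    (law_FFr : ∀ (P : PQ.Par) (f : ℕ → TF), (∀ k ∈ PQ.KR P, PQ.KF P k (f k)) →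
      LLNr (fun x t => PQ.FF P (x ^ ((1 : ℝ) / 2)) t) (fun x => PQ.AT P (x ^ ((1 : ℝ) / 2))))
    (law_FKr : ∀ (P : PQ.Par) (f : ℕ → TF), (∀ k ∈ PQ.KR P, PQ.KF P k (f k)) →
      LLNr (fun x t => ∑ k ∈ PQ.KR P, PQ.FK P k (x ^ ((1 : ℝ) / 2)) t * pss (f k).h 2 (x ^ ((1 : ℝ) / 2)) t)
        (fun x => - PQ.BT P (x ^ ((1 : ℝ) / 2))))
    (l2_FK : ∀ (P : PQ.Par) (g : TF), GoodG g → ∀ {k : ℕ} {f : TF}, PQ.KF P k f →
      L2W g (fun x t => |PQ.FK P k (x ^ ((1 : ℝ) / 2)) t| * (1 + |pss f.h 2 (x ^ ((1 : ℝ) / 2)) t|)))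
    {c : ℝ} (hc : 0 < c) (hc1 : c < 1) (hcb : 103 ≤ c * (103 + 97 * (1 / 2))) (hcb1 : c * (1 / 2) ≤ 103 / 200) :
    ∃ C κ : ℝ, 0 < C ∧ 0 < κ ∧ ∀ K : ℝ, 1 ≤ K → ∀ᶠ x : ℝ in atTop, ∀ J : Finset ℕ, InW K x J → Clear c K x J →
      (J.card : ℝ) * (K / Real.log x) ≤ C * K ^ (-κ) * x := by
  obtain ⟨P, hPc, hAR⟩ := Pool.Agent.Helper22.SI.arith (c' := c * (1 / 2)) (by positivity) hcb1
  obtain ⟨g, hg⟩ := exists_gg
  have hb : (0 : ℝ) < 1 / 2 := by norm_num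
  have hb1 : (1 : ℝ) / 2 ≤ 1 := by norm_num
  have hf' : ∀ k : ℕ, ∃ f : TF, k ∈ PQ.KR P → PQ.KF P k f := by
    intro k
    by_cases hk : k ∈ PQ.KR P
    · obtain ⟨f, hf⟩ := PQ.exists_KF P hk
      exact ⟨f, fun _ => hf⟩
    · exact ⟨g, fun h => absurd h hk⟩
  choose f hf using hf'
  have htd := tendsto_rpow_atTop hb
  obtain ⟨ε0, hε0e⟩ : ∃ ε0 : ℝ, ε0 = c * (1 / 2) / 515000 := ⟨_, rfl⟩
  have hε0 : 0 < ε0 := by rw [hε0e]; positivity
  -- the parts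
  have hpl : ∀ k : ℕ, ∃ C κ : ℝ, 0 < C ∧ 0 < κ ∧ (k ∈ PQ.KR P → ∀ K : ℝ, 1 ≤ K →
      ∀ᶠ x : ℝ in atTop, ∀ J : Finset ℕ, InW K x J → Clear c K x J →
        |(∑ ρ ∈ IS K (Real.sqrt K) x J, ∫ t in ((ρ : ℂ).im - SM.hw c x)..((ρ : ℂ).im + SM.hw c x), PQ.FK P k (x ^ ((1 : ℝ) / 2)) t) -
          (c * (∫ t in St K 0 x J, PQ.FK P k (x ^ ((1 : ℝ) / 2)) t) -
            ∫ t in St K 0 x J, PQ.FK P k (x ^ ((1 : ℝ) / 2)) t * pss (f k).h 2 (x ^ ((1 : ℝ) / 2)) t)| ≤ C * K ^ (-κ) * x) := by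
    intro k
    by_cases hk : k ∈ PQ.KR P
    · have hkf := hf k hk
      have hL2 : L2W g (fun x t => |PQ.FK P k (x ^ ((1 : ℝ) / 2)) t| *
          (1 + |pss (Pool.Agent.Helper22.SI.scl (f k) (1 / 2) hb hb1).h 2 x t|)) := by
        obtain ⟨C, hC, h1⟩ := l2_FK P g hg hkf
        refine ⟨C, hC, ?_⟩
        filter_upwards [h1, eventually_gt_atTop 1] with x hx hx1
        simp only [Pool.Agent.Helper22.SI.scl_pss (f k) hb hb1 hx1]
        exact hx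
      have hcr : Crude (fun x t => PQ.FK P k (x ^ ((1 : ℝ) / 2)) t) := by
        obtain ⟨κ, C0, hκ, h1⟩ := PQ.SI.crude_b (F := PQ.FK P k) (by
          filter_upwards [PQ.FK_crude P] with T hT t
          exact hT k t) hb
        refine ⟨κ, max C0 1, lt_max_of_lt_right one_pos, by linarith, ?_⟩
        filter_upwards [h1, eventually_gt_atTop (0 : ℝ)] with x hx hx0 t
        exact (hx t).trans (mul_le_mul_of_nonneg_right (le_max_left _ _) (Real.rpow_nonneg hx0.le _))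
      obtain ⟨C, κ, hC, hκ, h⟩ := part_rate hc g (Pool.Agent.Helper22.SI.scl (f k) (1 / 2) hb hb1) hg
        (fun x t => PQ.FK P k (x ^ ((1 : ℝ) / 2)) t) (fun T => PQ.FK_cont P k (T ^ ((1 : ℝ) / 2))) hcr hL2 (by
          filter_upwards [eventually_gt_atTop 1] with x hx γ
          have h1 := PQ.window_FK hkf (Real.one_lt_rpow hx hb) γ
          rw [PQ.SI.hw_eq hb hx hPc] at h1
          rw [h1]
          refine integral_congr_ae (Eventually.of_forall fun t => ?_)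
          simp only
          rw [Pool.Agent.Helper22.SI.scl_krs (f k) hb hb1 2 (by linarith)])
      refine ⟨C, κ, hC, hκ, fun _ K hK => ?_⟩
      have h0 : (Pool.Agent.Helper22.SI.scl (f k) (1 / 2) hb hb1).h 0 = c := by
        rw [Pool.Agent.Helper22.SI.scl_zero, PQ.KF_zero hkf, hPc]
        field_simp
      filter_upwards [h K hK, eventually_gt_atTop 1] with x hx hx1 J hJ hcl
      have h2 := hx J hJ hcl
      rw [h0] at h2
      simp only [Pool.Agent.Helper22.SI.scl_pss (f k) hb hb1 hx1] at h2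
      exact h2
    · exact ⟨1, 1, one_pos, one_pos, fun h => absurd h hk⟩
  choose Ck κk hCk hκk hlow using hpl
  obtain ⟨CA, κA, hCA, hκA, hA⟩ := law_FFr P f hf
  obtain ⟨CB, κB, hCB, hκB, hB⟩ := law_FKr P f hf
  -- the common exponent
  have hne : (PQ.KR P).Nonempty := ⟨0, by unfold PQ.KR; simp⟩
  obtain ⟨κ0, hκ0, hκ0le⟩ : ∃ κ0 : ℝ, 0 < κ0 ∧ ∀ k ∈ PQ.KR P, κ0 ≤ κk k := by
    refine ⟨(PQ.KR P).inf' hne κk, ?_, fun k hk => Finset.inf'_le _ hk⟩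
    rw [Finset.lt_inf'_iff]
    exact fun k _ => hκk k
  obtain ⟨κ, hκe⟩ : ∃ κ : ℝ, κ = min κ0 (min κA (min κB 1)) := ⟨_, rfl⟩
  have hκ : 0 < κ := by
    rw [hκe]
    exact lt_min hκ0 (lt_min hκA (lt_min hκB one_pos))
  have hκa : κ ≤ κ0 := by rw [hκe]; exact min_le_left _ _
  have hκb : κ ≤ κA := by rw [hκe]; exact (min_le_right _ _).trans (min_le_left _ _)
  have hκc : κ ≤ κB := by rw [hκe]; exact (min_le_right _ _).trans ((min_le_right _ _).trans (min_le_left _ _))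
  have hκd : κ ≤ 1 := by rw [hκe]; exact (min_le_right _ _).trans ((min_le_right _ _).trans (min_le_right _ _))
  obtain ⟨M, hM⟩ : ∃ M : ℝ, M = (∑ k ∈ PQ.KR P, Ck k) + CA + CB := ⟨_, rfl⟩
  have hs0 : 0 ≤ ∑ k ∈ PQ.KR P, Ck k := Finset.sum_nonneg fun k _ => (hCk k).le
  have hM0 : 0 < M := by rw [hM]; linarith
  refine ⟨M / ε0 + 10, κ, by positivity, hκ, fun K hK => ?_⟩
  have hK0 : 0 < K := by linarith
  obtain ⟨q, hq⟩ : ∃ q : ℝ, q = K ^ (-κ) := ⟨_, rfl⟩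
  have hq0 : 0 < q := by rw [hq]; exact Real.rpow_pos_of_pos hK0 _
  have hmono : ∀ a : ℝ, κ ≤ a → K ^ (-a) ≤ q := by
    intro a ha
    rw [hq]
    exact Real.rpow_le_rpow_of_exponent_le hK (by linarith)
  rw [← hq]
  by_cases hK10 : K ≤ 10
  · -- small `K`
    have hq1 : 1 / 10 ≤ q := by
      have h1 : (10 : ℝ) ^ (-κ) ≤ q := by
        rw [hq]
        exact Real.rpow_le_rpow_of_nonpos hK0 hK10 (by linarith)
      have h2 : (10 : ℝ) ^ (-(1 : ℝ)) ≤ 10 ^ (-κ) := Real.rpow_le_rpow_of_exponent_le (by norm_num) (by linarith)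
      rw [Real.rpow_neg_one] at h2
      linarith
    filter_upwards [eventually_gt_atTop (1 : ℝ)] with x hx J hJ _
    have hx0 : 0 < x := by linarith
    have h1 := InW_card hx hK0 hJ
    have h2 : x ≤ (M / ε0 + 10) * q * x := by
      have h3 : 1 ≤ (M / ε0 + 10) * q := by
        have h4 : 0 ≤ M / ε0 * q := by positivity
        nlinarith
      nlinarith
    linarith
  rw [not_le] at hK10
  have hD : Real.pi * c ≤ Real.sqrt K := by
    have h1 : Real.pi * c ≤ Real.sqrt 10 := by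
      have h2 : Real.pi < 3.15 := Real.pi_lt_d2
      have h3 : Real.pi * c ≤ 3.15 * 1 := mul_le_mul h2.le hc1.le hc.le (by norm_num)
      have h4 : (3.15 : ℝ) ≤ Real.sqrt 10 := by
        rw [Real.le_sqrt' (by norm_num)]
        norm_num
      linarith
    exact h1.trans (Real.sqrt_le_sqrt hK10.le)
  have hall : ∀ᶠ x : ℝ in atTop, ∀ k ∈ PQ.KR P, ∀ J : Finset ℕ, InW K x J → Clear c K x J →
        |(∑ ρ ∈ IS K (Real.sqrt K) x J, ∫ t in ((ρ : ℂ).im - SM.hw c x)..((ρ : ℂ).im + SM.hw c x), PQ.FK P k (x ^ ((1 : ℝ) / 2)) t) -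
          (c * (∫ t in St K 0 x J, PQ.FK P k (x ^ ((1 : ℝ) / 2)) t) -
            ∫ t in St K 0 x J, PQ.FK P k (x ^ ((1 : ℝ) / 2)) t * pss (f k).h 2 (x ^ ((1 : ℝ) / 2)) t)| ≤ Ck k * q * x := by
    rw [Filter.eventually_all_finset]
    intro k hk
    filter_upwards [hlow k hk K hK, eventually_gt_atTop (0 : ℝ)] with x hx hx0 J hJ hcl
    refine (hx J hJ hcl).trans ?_
    refine mul_le_mul_of_nonneg_right ?_ hx0.le
    exact mul_le_mul_of_nonneg_left (hmono _ (hκa.trans (hκ0le k hk))) (hCk k).le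
  filter_upwards [hall, hA K hK, hB K hK, htd.eventually hAR, htd.eventually (PQ.AT_one_le P),
    eventually_gt_atTop 1] with x h1 h2 h3 h5' h6 hx J hJ hcl
  have hx0 : 0 < x := by linarith
  have hL : 0 < Real.log x := Real.log_pos hx
  obtain ⟨U, hU⟩ : ∃ U : ℝ, U = x ^ ((1 : ℝ) / 2) := ⟨_, rfl⟩
  have h2' : |(∫ t in St K 0 x J, PQ.FF P (x ^ ((1 : ℝ) / 2)) t) - J.card * (K / Real.log x) * PQ.AT P (x ^ ((1 : ℝ) / 2))| ≤
      CA * q * x := by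
    refine (h2 J hJ).trans ?_
    refine mul_le_mul_of_nonneg_right ?_ hx0.le
    exact mul_le_mul_of_nonneg_left (hmono _ hκb) hCA.le
  have h3' : |(∫ t in St K 0 x J, ∑ k ∈ PQ.KR P, PQ.FK P k (x ^ ((1 : ℝ) / 2)) t * pss (f k).h 2 (x ^ ((1 : ℝ) / 2)) t) -
      J.card * (K / Real.log x) * -PQ.BT P (x ^ ((1 : ℝ) / 2))| ≤ CB * q * x := by
    refine (h3 J hJ).trans ?_
    refine mul_le_mul_of_nonneg_right ?_ hx0.le
    exact mul_le_mul_of_nonneg_left (hmono _ hκc) hCB.le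
  have h1' := fun k hk => h1 k hk J hJ hcl
  simp only [← hU] at h1' h2' h3' h5' h6
  obtain ⟨V, hV⟩ : ∃ V : ℝ, V = J.card * (K / Real.log x) := ⟨_, rfl⟩
  have hV0 : 0 ≤ V := by rw [hV]; positivity
  rw [← hV] at h2' h3' ⊢
  have hSsub := St_sub (K := K) (D := 0) hx (by linarith) le_rfl hJ
  have hio : ∀ G : ℝ → ℝ, Continuous G → IntegrableOn G (St K 0 x J) := fun G hG =>
    (hG.integrableOn_Icc).mono_set hSsub
  have hup := upper_cells hc (F := fun t => PQ.FF P U t) (PQ.FF_cont P U) (fun t => PQ.FF_nonneg P U t) hx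
    (by linarith : 0 ≤ K) hD hJ hcl
  have hsum : ∫ t in St K 0 x J, PQ.FF P U t = ∑ k ∈ PQ.KR P, ∫ t in St K 0 x J, PQ.FK P k U t := by
    rw [← integral_finsetSum _ (fun k _ => hio _ (PQ.FK_cont P k U))]
    refine integral_congr_ae (Eventually.of_forall fun t => ?_)
    simp only [PQ.FF_eq]
  have hsum2 : ∫ t in St K 0 x J, (∑ k ∈ PQ.KR P, PQ.FK P k U t * pss (f k).h 2 U t) =
      ∑ k ∈ PQ.KR P, ∫ t in St K 0 x J, PQ.FK P k U t * pss (f k).h 2 U t := by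
    exact integral_finsetSum _ (fun k _ => hio (fun t => PQ.FK P k U t * pss (f k).h 2 U t)
      ((PQ.FK_cont P k U).mul (pss_cont _ 2 U)))
  have hwsum : ∑ ρ ∈ IS K (Real.sqrt K) x J, (∫ t in ((ρ : ℂ).im - SM.hw c x)..((ρ : ℂ).im + SM.hw c x), PQ.FF P U t) =
      ∑ k ∈ PQ.KR P, ∑ ρ ∈ IS K (Real.sqrt K) x J, (∫ t in ((ρ : ℂ).im - SM.hw c x)..((ρ : ℂ).im + SM.hw c x), PQ.FK P k U t) := by
    rw [Finset.sum_comm]
    refine Finset.sum_congr rfl fun ρ _ => ?_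
    rw [← intervalIntegral.integral_finsetSum]
    · refine intervalIntegral.integral_congr fun t _ => ?_
      simp only [PQ.FF_eq]
    · intro k _
      exact (PQ.FK_cont P k U).intervalIntegrable _ _
  rw [hwsum] at hup
  have hlow' : c * (∫ t in St K 0 x J, PQ.FF P U t) - (∑ k ∈ PQ.KR P, ∫ t in St K 0 x J, PQ.FK P k U t * pss (f k).h 2 U t) -
      (∑ k ∈ PQ.KR P, Ck k * q * x) ≤ ∑ k ∈ PQ.KR P, ∑ ρ ∈ IS K (Real.sqrt K) x J,
        (∫ t in ((ρ : ℂ).im - SM.hw c x)..((ρ : ℂ).im + SM.hw c x), PQ.FK P k U t) := by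
    rw [hsum, Finset.mul_sum, ← Finset.sum_sub_distrib, ← Finset.sum_sub_distrib]
    refine Finset.sum_le_sum fun k hk => ?_
    have := (abs_le.mp (h1' k hk)).1
    linarith
  rw [hsum2] at h3'
  have hCs : ∑ k ∈ PQ.KR P, Ck k * q * x = (∑ k ∈ PQ.KR P, Ck k) * q * x := by
    rw [Finset.sum_mul, Finset.sum_mul]
  rw [hCs] at hlow'
  obtain ⟨I0, hI0⟩ : ∃ I0 : ℝ, I0 = ∫ t in St K 0 x J, PQ.FF P U t := ⟨_, rfl⟩
  obtain ⟨G0, hG0⟩ : ∃ G0 : ℝ, G0 = ∑ k ∈ PQ.KR P, ∫ t in St K 0 x J, PQ.FK P k U t * pss (f k).h 2 U t := ⟨_, rfl⟩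
  rw [← hI0] at hup hlow' h2'
  rw [← hG0] at hlow' h3'
  have e2 := abs_le.mp h2'
  have e3 := abs_le.mp h3'
  have hAT0 : 0 ≤ PQ.AT P U := by linarith
  have h5 : (1 - c + ε0) * PQ.AT P U ≤ PQ.BT P U := by
    refine le_trans (mul_le_mul_of_nonneg_right ?_ hAT0) h5'
    rw [hε0e]
    linarith
  have hI : (1 - c) * I0 ≤ (1 - c) * (V * PQ.AT P U + CA * q * x) :=
    mul_le_mul_of_nonneg_left (by linarith [e2.2]) (by linarith)
  have hkey : V * ((1 - c + ε0) * PQ.AT P U) ≤ V * PQ.BT P U := mul_le_mul_of_nonneg_left h5 hV0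
  have hCAx : 0 ≤ CA * q * x := by positivity
  have h7 : (1 - c) * (CA * q * x) ≤ 1 * (CA * q * x) := mul_le_mul_of_nonneg_right (by linarith) hCAx
  have hMe : M * q * x = (∑ k ∈ PQ.KR P, Ck k) * q * x + CA * q * x + CB * q * x := by
    rw [hM]
    ring
  have hfin : V * (ε0 * PQ.AT P U) ≤ M * q * x := by
    rw [hMe]
    nlinarith [e3.1, e3.2, hup, hlow', hI, hkey]
  have h9 : V * ε0 ≤ V * (ε0 * PQ.AT P U) := by
    have h10 : 0 ≤ V * ε0 := by positivity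
    nlinarith
  have h11 : V ≤ M / ε0 * q * x := by
    rw [div_mul_eq_mul_div, div_mul_eq_mul_div, le_div_iff₀ hε0]
    linarith
  have h12 : 0 ≤ 10 * q * x := by positivity
  calc V ≤ M / ε0 * q * x := h11
    _ ≤ M / ε0 * q * x + 10 * q * x := by linarith
    _ = (M / ε0 + 10) * q * x := by ring

end Pool.Agent.Helper69.ES
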