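import Pool.Agent.Helper69.ES.LawR
import Pool.Agent.Helper69.ES.MainR
import Pool.Agent.Helper62.ES.SmoothR
import Pool.Agent.Helper62.ES.BadR
import Pool.Agent.Helper38.ES.MeanSqR
import Pool.Agent.Helper7.ES.LawFFr
import Pool.Agent.Helper53.ES.Z4
import Pool.Agent.Helper53.ES.L2
import Pool.Agent.Helper54.ES.PartR
import Pool.Agent.Helper99.ES.Z1r
import Pool.Agent.Helper18.ES.LawFKr

/-!
# ES with a rate: assembly, up to the law for the prime sums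
-/

open MeasureTheory Set Filter Topology
open Pool.Agent.Helper57.Zeta Pool.Agent.Helper57.PC Pool.Agent.Helper57.LH Pool.Agent.Helper78.SG
open Pool.Agent.Helper4.SH Pool.Agent.Helper69.PP Pool.Agent.Helper22.SI
open Pool.Agent.Helper69.SM (wt)
open scoped Interval

namespace Pool.Agent.Helper69.ESR

open Pool.Agent.Helper69 Pool.Agent.Helper69.ES

/-- L3r -/
theorem law_rate {ι : Type} {F : ℝ → ℝ → ℝ} {S : ℝ → Finset ι} {c : ℝ → ι → ℝ} {a b : ι → ℕ} (g : TF) (hg : GoodG g)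
    (hr : Rep F S c a b) (hd : Dgr S c a b) (hFc : ∀ x, Continuous (F x)) (hFb : Crude F) (hL : L2W g F) :
    LLNr F (fun x => ∑ i ∈ S x, if a i = b i then c x i else 0) :=
  law_rate_of (fun {_} hg F hFc hFb hL => Pool.Agent.Helper62.ESR.smooth_rate hg F hFc hFb hL)
    (fun {_ _ _ _ _ _} g hg hr hd => Pool.Agent.Helper38.ES.mean_sq_rate g hg hr hd) g hg hr hd hFc hFb hL

theorem law_FFr (P : PQ.Par) (f : ℕ → TF) (hf : ∀ k ∈ PQ.KR P, PQ.KF P k (f k)) :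
    LLNr (fun x t => PQ.FF P (x ^ ((1 : ℝ) / 2)) t) (fun x => PQ.AT P (x ^ ((1 : ℝ) / 2))) :=
  Pool.Agent.Helper7.ES.law_FFr_of law_rate Pool.Agent.Helper53.ES.l2_FK P f hf

theorem part_rate {c : ℝ} (hc : 0 < c) (g f : TF) (hg : GoodG g) (F : ℝ → ℝ → ℝ) (hFc : ∀ x, Continuous (F x))
    (hFb : Crude F) (hL : L2W g (fun x t => |F x t| * (1 + |pss f.h 2 x t|)))
    (hwin : ∀ᶠ x : ℝ in atTop, ∀ γ : ℝ, ∫ t in (γ - SM.hw c x)..(γ + SM.hw c x), F x t = ∫ t, F x t * krs f.h 2 x (t - γ)) :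
    ∃ C κ : ℝ, 0 < C ∧ 0 < κ ∧ ∀ K : ℝ, 1 ≤ K → ∀ᶠ x : ℝ in atTop, ∀ J : Finset ℕ, InW K x J → Clear c K x J →
      |(∑ ρ ∈ IS K (Real.sqrt K) x J, ∫ t in ((ρ : ℂ).im - SM.hw c x)..((ρ : ℂ).im + SM.hw c x), F x t) -
        (f.h 0 * (∫ t in St K 0 x J, F x t) - ∫ t in St K 0 x J, F x t * pss f.h 2 x t)| ≤ C * K ^ (-κ) * x :=
  Pool.Agent.Helper54.ES.part_rate hc g f hg F hFc hFb hL hwin (Pool.Agent.Helper99.ES.Zc_bdd hc f)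
    (Pool.Agent.Helper99.ESR.dev_rate hc f)

theorem law_FKr (P : PQ.Par) (f : ℕ → TF) (hf : ∀ k ∈ PQ.KR P, PQ.KF P k (f k)) :
    LLNr (fun x t => ∑ k ∈ PQ.KR P, PQ.FK P k (x ^ ((1 : ℝ) / 2)) t * pss (f k).h 2 (x ^ ((1 : ℝ) / 2)) t)
      (fun x => - PQ.BT P (x ^ ((1 : ℝ) / 2))) :=
  Pool.Agent.Helper69.PQ.H18.law_FKr_of law_rate Pool.Agent.Helper53.ES.l2_FK P f hf

/-- Mr: few clear cells, with a rate -/
theorem cells_rate {c : ℝ} (hc : 0 < c) (hc1 : c < 1) (hcb : 103 ≤ c * (103 + 97 * (1 / 2))) (hcb1 : c * (1 / 2) ≤ 103 / 200) :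
    ∃ C κ : ℝ, 0 < C ∧ 0 < κ ∧ ∀ K : ℝ, 1 ≤ K → ∀ᶠ x : ℝ in atTop, ∀ J : Finset ℕ, InW K x J → Clear c K x J →
      (J.card : ℝ) * (K / Real.log x) ≤ C * K ^ (-κ) * x :=
  cells_rate_of (fun {_} hc g f hg F hFc hFb hL hwin => part_rate hc g f hg F hFc hFb hL hwin)
    (fun {_} hc {_} hF hF0 {_ _ _} hx hK hD {_} hJ hcl => Pool.Agent.Helper53.ES.upper_cells hc hF hF0 hx hK hD hJ hcl)
    law_FFr law_FKr (fun P g hg {_ _} hf => Pool.Agent.Helper53.ES.l2_FK P g hg hf) hc hc1 hcb hcb1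

/-- R1r: the points that begin a stretch without close zeros -/
theorem bad_rate {c : ℝ} (hc : 0 < c) (hc1 : c < 1) (hcb : 103 ≤ c * (103 + 97 * (1 / 2))) (hcb1 : c * (1 / 2) ≤ 103 / 200) :
    ∃ C κ : ℝ, 0 < C ∧ 0 < κ ∧ ∀ K : ℝ, 1 ≤ K → ∀ᶠ x : ℝ in atTop,
      volume {t : ℝ | t ∈ Icc (11 * x / 8) (13 * x / 8) ∧
        ∀ ρ : ZS, t ≤ (ρ : ℂ).im → (ρ : ℂ).im ≤ t + K / Real.log x → ¬ SM.CloseC c x ρ} ≤
        ENNReal.ofReal (C * K ^ (-κ) * x) :=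
  Pool.Agent.Helper62.ESR.bad_rate_of (cells_rate hc hc1 hcb hcb1)

end Pool.Agent.Helper69.ESR
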