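import Pool.Agent.Helper69.ES.Easy

/-!
# ES: the law of large numbers from the smoothing lemma and the mean square
-/

open MeasureTheory Set Filter Topology
open Pool.Agent.Helper57.Zeta Pool.Agent.Helper57.PC Pool.Agent.Helper57.LH Pool.Agent.Helper78.SG
open Pool.Agent.Helper4.SH Pool.Agent.Helper69.PP Pool.Agent.Helper22.SI
open Pool.Agent.Helper69.SM (wt)

namespace Pool.Agent.Helper69.ES

/-- continuity of the smoothed function -/
theorem sm_cont (h : TF) {F : ℝ → ℝ → ℝ} {x : ℝ} (hx : 1 < x) (hFc : Continuous (F x)) {C : ℝ} (hFb : ∀ t, |F x t| ≤ C) :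
    Continuous (fun u => sm h F x u) := by
  unfold sm
  refine continuous_const.mul ?_
  have e : (fun u => ∫ t, F x t * krs h.h 1 x (t - u)) = fun u => ∫ v, F x (v + u) * krs h.h 1 x v := by
    funext u
    rw [← integral_add_right_eq_self (fun t => F x t * krs h.h 1 x (t - u)) u]
    refine integral_congr_ae (Eventually.of_forall fun v => ?_)
    simp only [add_sub_cancel_right]
  rw [e]
  have hk := krs_integrable h (s := 1) (T := x) le_rfl hx
  refine continuous_of_dominated (bound := fun v => C * |krs h.h 1 x v|) ?_ ?_ ?_ ?_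
  · intro u
    exact ((hFc.comp (continuous_id.add continuous_const)).mul (krs_cont h 1 x)).aestronglyMeasurable
  · intro u
    refine Eventually.of_forall fun v => ?_
    rw [Real.norm_eq_abs, abs_mul]
    exact mul_le_mul_of_nonneg_right (hFb _) (abs_nonneg _)
  · exact hk.abs.const_mul C
  · refine Eventually.of_forall fun v => ?_
    exact (hFc.comp (continuous_const.add continuous_id)).mul continuous_const

/-- L3, from L1 (`smooth_lim`) and L2 (`mean_sq`) -/
theorem law_of_of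
    (smooth_lim : ∀ {g h : TF}, GoodG g → h.h 0 = 1 → ∀ (F : ℝ → ℝ → ℝ), (∀ x, Continuous (F x)) →
      Crude F → UIW g F → ∀ {ε : ℝ}, 0 < ε →
      ∃ K0 : ℝ, ∀ K : ℝ, K0 ≤ K → ∀ᶠ x : ℝ in atTop, ∀ J : Finset ℕ, InW K x J →
        |(∫ t in St K 0 x J, F x t) - ∫ u in St K 0 x J, sm h F x u| ≤ ε * x)
    (mean_sq : ∀ {ι : Type} {F : ℝ → ℝ → ℝ} {S : ℝ → Finset ι} {c : ℝ → ι → ℝ} {a b : ι → ℕ} (g : TF), GoodG g →
      Rep F S c a b → ∀ {ε : ℝ}, 0 < ε →
      ∃ θ : ℝ, 0 < θ ∧ ∀ h : TF, h.th ≤ θ → (∀ y, |h.h y| ≤ 1) → h.h 0 = 1 → ∀ᶠ x : ℝ in atTop,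
        ∫ u, wt g.h x x u * (sm h F x u - ∑ i ∈ S x, if a i = b i then c x i else 0) ^ 2 ≤ ε * x)
    {ι : Type} {F : ℝ → ℝ → ℝ} {S : ℝ → Finset ι} {c : ℝ → ι → ℝ} {a b : ι → ℕ} (g : TF) (hg : GoodG g)
    (hr : Rep F S c a b) (hFc : ∀ x, Continuous (F x)) (hFb : Crude F) (hui : UIW g F) :
    LLN F (fun x => ∑ i ∈ S x, if a i = b i then c x i else 0) := by
  intro ε hε
  obtain ⟨θ, hθ, h1⟩ := mean_sq g hg hr (ε := ε ^ 2) (by positivity)
  obtain ⟨h, hh1, hh2, hh3⟩ := exists_hh hθ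
  have h2 := h1 h hh1 hh2 hh3
  obtain ⟨K0, h3⟩ := smooth_lim hg hh3 F hFc hFb hui (ε := ε / 2) (by positivity)
  refine ⟨max K0 1, fun K hK => ?_⟩
  have hK0 : K0 ≤ K := (le_max_left _ _).trans hK
  have hK1 : 1 ≤ K := (le_max_right _ _).trans hK
  obtain ⟨κ, C0, hC0, hκ, hcr⟩ := hFb
  filter_upwards [h3 K hK0, h2, hcr, eventually_gt_atTop (1 : ℝ)] with x h4 h5 hcrx hx J hJ
  have hx0 : 0 < x := by linarith
  have hL : 0 < Real.log x := Real.log_pos hx
  obtain ⟨m, hm⟩ : ∃ m : ℝ, m = ∑ i ∈ S x, if a i = b i then c x i else 0 := ⟨_, rfl⟩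
  rw [← hm] at h5
  show |(∫ t in St K 0 x J, F x t) - J.card * (K / Real.log x) * ∑ i ∈ S x, (if a i = b i then c x i else 0)| ≤ ε * x
  rw [← hm]
  have h6 := h4 J hJ
  have hsc : Continuous (fun u => sm h F x u) := sm_cont h hx (hFc x) hcrx
  have hdc : Continuous (fun u => sm h F x u - m) := hsc.sub continuous_const
  have hSm := St_meas K 0 x J
  have hSv := St_real hx (by linarith : 0 ≤ K) J
  have hSfin : volume (St K 0 x J) ≠ ⊤ := by
    rw [St_vol hx le_rfl (by linarith) J]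
    exact ENNReal.ofReal_ne_top
  have hSsub := St_sub (K := K) (D := 0) hx (by linarith) le_rfl hJ
  have hio : ∀ G : ℝ → ℝ, Continuous G → IntegrableOn G (St K 0 x J) := fun G hG =>
    (hG.integrableOn_Icc).mono_set hSsub
  have hcard := InW_card hx (by linarith : 0 < K) hJ
  -- the mean
  have e1 : (∫ u in St K 0 x J, sm h F x u) - J.card * (K / Real.log x) * m = ∫ u in St K 0 x J, (sm h F x u - m) := by
    rw [integral_sub (hio _ hsc) (hio _ continuous_const), setIntegral_const, smul_eq_mul, ← hSv]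
    rfl
  -- Cauchy-Schwarz
  have h7 : ∫ u in St K 0 x J, (sm h F x u - m) ^ 2 ≤ ε ^ 2 * x := by
    refine le_trans ?_ h5
    rw [← integral_indicator hSm]
    have hwi : Integrable (fun u => wt g.h x x u * (sm h F x u - m) ^ 2) :=
      Pool.Agent.Helper69.SM.wt_mul_integrable g hg.1 hx0 (hdc.pow 2)
    refine integral_mono ((hio _ (hdc.pow 2)).integrable_indicator hSm) hwi fun u => ?_
    have h8 := ind_le_wt hg (K := K) (D := 0) hx (by linarith) le_rfl hJ u
    by_cases hu : u ∈ St K 0 x J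
    · rw [indicator_of_mem hu] at h8 ⊢
      exact le_mul_of_one_le_left (sq_nonneg _) h8
    · rw [indicator_of_notMem hu]
      exact mul_nonneg (hg.2.1 _) (sq_nonneg _)
  have h8 : (∫ u in St K 0 x J, |sm h F x u - m|) ≤ ε / 2 * x := by
    -- |d| <= d^2/(2 e) + e/2 pointwise
    have hi1 := hio _ hdc.abs
    have hi2 : IntegrableOn (fun u => (sm h F x u - m) ^ 2) (St K 0 x J) := hio _ (hdc.pow 2)
    have hi3 : IntegrableOn (fun _ : ℝ => ε) (St K 0 x J) := hio _ continuous_const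
    have h9 : (∫ u in St K 0 x J, |sm h F x u - m|) ≤ ∫ u in St K 0 x J, ((1 / (4 * ε)) * (sm h F x u - m) ^ 2 + ε) := by
      refine integral_mono hi1 ((hi2.const_mul _).add hi3) fun u => ?_
      simp only
      have h10 : 0 ≤ (|sm h F x u - m| - 2 * ε) ^ 2 := sq_nonneg _
      have h11 : (sm h F x u - m) ^ 2 = |sm h F x u - m| ^ 2 := (sq_abs _).symm
      rw [h11]
      have h12 : |sm h F x u - m| * (4 * ε) ≤ |sm h F x u - m| ^ 2 + ε * (4 * ε) := by nlinarith
      have h13 : |sm h F x u - m| ≤ (|sm h F x u - m| ^ 2 + ε * (4 * ε)) / (4 * ε) := by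
        rw [le_div_iff₀ (by positivity)]
        exact h12
      refine h13.trans (le_of_eq ?_)
      field_simp
    refine h9.trans ?_
    rw [integral_add (hi2.const_mul _) hi3, integral_const_mul, setIntegral_const, smul_eq_mul]
    have h14 : volume.real (St K 0 x J) = (volume (St K 0 x J)).toReal := rfl
    rw [h14, hSv]
    have h15 : 1 / (4 * ε) * ∫ u in St K 0 x J, (sm h F x u - m) ^ 2 ≤ 1 / (4 * ε) * (ε ^ 2 * x) :=
      mul_le_mul_of_nonneg_left h7 (by positivity)
    have h16 : 1 / (4 * ε) * (ε ^ 2 * x) = ε / 4 * x := by field_simp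
    have h17 : (J.card : ℝ) * (K / Real.log x) * ε ≤ x / 4 * ε := mul_le_mul_of_nonneg_right hcard hε.le
    linarith
  have h9 : |(∫ u in St K 0 x J, sm h F x u) - J.card * (K / Real.log x) * m| ≤ ε / 2 * x := by
    rw [e1]
    exact (abs_integral_le_integral_abs).trans h8
  calc |(∫ t in St K 0 x J, F x t) - J.card * (K / Real.log x) * m|
      = |((∫ t in St K 0 x J, F x t) - ∫ u in St K 0 x J, sm h F x u) +
          ((∫ u in St K 0 x J, sm h F x u) - J.card * (K / Real.log x) * m)| := by ring_nf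
    _ ≤ ε / 2 * x + ε / 2 * x := (abs_add_le _ _).trans (add_le_add h6 h9)
    _ = ε * x := by ring

end Pool.Agent.Helper69.ES
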