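import Pool.Agent.Helper69.ES.Law
import Pool.Agent.Helper62.ES.Smooth
import Pool.Agent.Helper38.ES.MeanSq

/-!
# ES: the law of large numbers, without hypotheses
-/

open MeasureTheory Set Filter Topology
open Pool.Agent.Helper57.Zeta Pool.Agent.Helper57.PC Pool.Agent.Helper57.LH Pool.Agent.Helper78.SG
open Pool.Agent.Helper4.SH Pool.Agent.Helper69.PP Pool.Agent.Helper22.SI
open Pool.Agent.Helper69.SM (wt)

namespace Pool.Agent.Helper69.ES

/-- L3 -/
theorem law_of {ι : Type} {F : ℝ → ℝ → ℝ} {S : ℝ → Finset ι} {c : ℝ → ι → ℝ} {a b : ι → ℕ} (g : TF) (hg : GoodG g)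
    (hr : Rep F S c a b) (hFc : ∀ x, Continuous (F x)) (hFb : Crude F) (hui : UIW g F) :
    LLN F (fun x => ∑ i ∈ S x, if a i = b i then c x i else 0) :=
  law_of_of (fun {_ _} hg hh F hFc hFb hui {_} hε => Pool.Agent.Helper62.ES.smooth_lim hg hh F hFc hFb hui hε)
    (fun {_ _ _ _ _ _} g hg hr {_} hε => Pool.Agent.Helper38.ES.mean_sq g hg hr hε) g hg hr hFc hFb hui

end Pool.Agent.Helper69.ES
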