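import Pool.Agent.Helper69.ES.Law
import Pool.Agent.Helper69.ES.DefsR

/-!
# ES with a rate: the law of large numbers from the smoothing lemma and the mean square
-/

open MeasureTheory Set Filter Topology
open Pool.Agent.Helper57.Zeta Pool.Agent.Helper57.PC Pool.Agent.Helper57.LH Pool.Agent.Helper78.SG
open Pool.Agent.Helper4.SH Pool.Agent.Helper69.PP Pool.Agent.Helper22.SI
open Pool.Agent.Helper69.SM (wt)

namespace Pool.Agent.Helper69.ES

/-- L3r, from L1r (`smooth_rate`) and L2r (`mean_sq_rate`) -/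
theorem law_rate_of
    (smooth_rate : ∀ {g : TF}, GoodG g → ∀ (F : ℝ → ℝ → ℝ), (∀ x, Continuous (F x)) → Crude F → L2W g F →
      ∃ C : ℝ, 0 < C ∧ ∀ θ : ℝ, 0 < θ → θ ≤ 1 → ∃ h : TF, h.th ≤ θ ∧ (∀ y, |h.h y| ≤ 1) ∧ h.h 0 = 1 ∧
        ∀ K : ℝ, 1 ≤ K → ∀ᶠ x : ℝ in atTop, ∀ J : Finset ℕ, InW K x J →
          |(∫ t in St K 0 x J, F x t) - ∫ u in St K 0 x J, sm h F x u| ≤ C * (θ * K) ^ (-(1 / 2) : ℝ) * x)
    (mean_sq_rate : ∀ {ι : Type} {F : ℝ → ℝ → ℝ} {S : ℝ → Finset ι} {c : ℝ → ι → ℝ} {a b : ι → ℕ} (g : TF), GoodG g →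
      Rep F S c a b → Dgr S c a b →
      ∃ C θ0 : ℝ, 0 < C ∧ 0 < θ0 ∧ ∀ θ : ℝ, 0 < θ → θ ≤ θ0 → ∀ h : TF, h.th ≤ θ → (∀ y, |h.h y| ≤ 1) → h.h 0 = 1 →
        ∀ᶠ x : ℝ in atTop,
        ∫ u, wt g.h x x u * (sm h F x u - ∑ i ∈ S x, if a i = b i then c x i else 0) ^ 2 ≤ C * θ * x)
    {ι : Type} {F : ℝ → ℝ → ℝ} {S : ℝ → Finset ι} {c : ℝ → ι → ℝ} {a b : ι → ℕ} (g : TF) (hg : GoodG g)
    (hr : Rep F S c a b) (hd : Dgr S c a b) (hFc : ∀ x, Continuous (F x)) (hFb : Crude F) (hL : L2W g F) :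
    LLNr F (fun x => ∑ i ∈ S x, if a i = b i then c x i else 0) := by
  obtain ⟨C1, hC1, h1⟩ := smooth_rate hg F hFc hFb hL
  obtain ⟨C2, θ0, hC2, hθ0, h2⟩ := mean_sq_rate g hg hr hd
  obtain ⟨θ1, hθ1⟩ : ∃ θ1 : ℝ, θ1 = min θ0 1 := ⟨_, rfl⟩
  have hθ1p : 0 < θ1 := by rw [hθ1]; exact lt_min hθ0 one_pos
  have hθ1a : θ1 ≤ θ0 := by rw [hθ1]; exact min_le_left _ _
  have hθ1b : θ1 ≤ 1 := by rw [hθ1]; exact min_le_right _ _
  obtain ⟨κ', C0, hC0, hκ', hcr⟩ := hFb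
  refine ⟨C1 * θ1 ^ (-(1 / 2) : ℝ) + (C2 * θ1 + 1), 1 / 4, by positivity, by norm_num, fun K hK1 => ?_⟩
  have hK0 : 0 < K := by linarith
  obtain ⟨q, hq⟩ : ∃ q : ℝ, q = K ^ (-(1 / 4) : ℝ) := ⟨_, rfl⟩
  have hq0 : 0 < q := by rw [hq]; exact Real.rpow_pos_of_pos hK0 _
  have hq1 : q ≤ 1 := by rw [hq]; exact Real.rpow_le_one_of_one_le_of_nonpos hK1 (by norm_num)
  have hqq : q ^ 2 = K ^ (-(1 / 2) : ℝ) := by
    rw [hq, ← Real.rpow_natCast, ← Real.rpow_mul hK0.le]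
    norm_num
  obtain ⟨θ, hθe⟩ : ∃ θ : ℝ, θ = θ1 * q ^ 2 := ⟨_, rfl⟩
  have hθp : 0 < θ := by rw [hθe]; positivity
  have hq2 : q ^ 2 ≤ 1 := by nlinarith
  have hθle : θ ≤ θ1 := by rw [hθe]; nlinarith
  obtain ⟨h, hh1, hh2, hh3, hs⟩ := h1 θ hθp (hθle.trans hθ1b)
  have hm := h2 θ hθp (hθle.trans hθ1a) h hh1 hh2 hh3
  -- the error of the smoothing
  have hsm : C1 * (θ * K) ^ (-(1 / 2) : ℝ) = C1 * θ1 ^ (-(1 / 2) : ℝ) * q := by
    have e1 : θ * K = θ1 * K ^ ((1 : ℝ) / 2) := by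
      rw [hθe, hqq, mul_assoc, ← Real.rpow_add_one hK0.ne']
      norm_num
    rw [e1, Real.mul_rpow hθ1p.le (Real.rpow_nonneg hK0.le _), ← Real.rpow_mul hK0.le, hq]
    norm_num
    ring
  filter_upwards [hs K hK1, hm, hcr, eventually_gt_atTop (1 : ℝ)] with x h4 h5 hcrx hx J hJ
  have hx0 : 0 < x := by linarith
  have hL : 0 < Real.log x := Real.log_pos hx
  obtain ⟨m, hm⟩ : ∃ m : ℝ, m = ∑ i ∈ S x, if a i = b i then c x i else 0 := ⟨_, rfl⟩
  rw [← hm] at h5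
  show |(∫ t in St K 0 x J, F x t) - J.card * (K / Real.log x) * ∑ i ∈ S x, (if a i = b i then c x i else 0)| ≤
    (C1 * θ1 ^ (-(1 / 2) : ℝ) + (C2 * θ1 + 1)) * K ^ (-(1 / 4) : ℝ) * x
  rw [← hm, ← hq]
  have h6 := h4 J hJ
  rw [hsm] at h6
  have hsc : Continuous (fun u => sm h F x u) := sm_cont h hx (hFc x) hcrx
  have hdc : Continuous (fun u => sm h F x u - m) := hsc.sub continuous_const
  have hSm := St_meas K 0 x J
  have hSv := St_real hx hK0.le J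
  have hSsub := St_sub (K := K) (D := 0) hx hK0.le le_rfl hJ
  have hio : ∀ G : ℝ → ℝ, Continuous G → IntegrableOn G (St K 0 x J) := fun G hG =>
    (hG.integrableOn_Icc).mono_set hSsub
  have hcard := InW_card hx hK0 hJ
  -- the mean
  have e1 : (∫ u in St K 0 x J, sm h F x u) - J.card * (K / Real.log x) * m = ∫ u in St K 0 x J, (sm h F x u - m) := by
    rw [integral_sub (hio _ hsc) (hio _ continuous_const), setIntegral_const, smul_eq_mul, ← hSv]
    rfl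
  -- Cauchy-Schwarz
  have h7 : ∫ u in St K 0 x J, (sm h F x u - m) ^ 2 ≤ C2 * θ * x := by
    refine le_trans ?_ h5
    rw [← integral_indicator hSm]
    have hwi : Integrable (fun u => wt g.h x x u * (sm h F x u - m) ^ 2) :=
      Pool.Agent.Helper69.SM.wt_mul_integrable g hg.1 hx0 (hdc.pow 2)
    refine integral_mono ((hio _ (hdc.pow 2)).integrable_indicator hSm) hwi fun u => ?_
    have h8 := ind_le_wt hg (K := K) (D := 0) hx hK0.le le_rfl hJ u
    by_cases hu : u ∈ St K 0 x J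
    · rw [indicator_of_mem hu] at h8 ⊢
      exact le_mul_of_one_le_left (sq_nonneg _) h8
    · rw [indicator_of_notMem hu]
      exact mul_nonneg (hg.2.1 _) (sq_nonneg _)
  have h8 : (∫ u in St K 0 x J, |sm h F x u - m|) ≤ (C2 * θ1 + 1) * q * x := by
    have hi1 := hio _ hdc.abs
    have hi2 : IntegrableOn (fun u => (sm h F x u - m) ^ 2) (St K 0 x J) := hio _ (hdc.pow 2)
    have hi3 : IntegrableOn (fun _ : ℝ => q) (St K 0 x J) := hio _ continuous_const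
    have h9 : (∫ u in St K 0 x J, |sm h F x u - m|) ≤ ∫ u in St K 0 x J, ((1 / q) * (sm h F x u - m) ^ 2 + q) := by
      refine integral_mono hi1 ((hi2.const_mul _).add hi3) fun u => ?_
      simp only
      have h10 : 0 ≤ (|sm h F x u - m| - q) ^ 2 := sq_nonneg _
      have h11 : (sm h F x u - m) ^ 2 = |sm h F x u - m| ^ 2 := (sq_abs _).symm
      rw [h11]
      have h14 := abs_nonneg (sm h F x u - m)
      have h12 : |sm h F x u - m| * q ≤ |sm h F x u - m| ^ 2 + q * q := by nlinarith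
      have h13 : |sm h F x u - m| ≤ (|sm h F x u - m| ^ 2 + q * q) / q := by
        rw [le_div_iff₀ hq0]
        exact h12
      refine h13.trans (le_of_eq ?_)
      field_simp
    refine h9.trans ?_
    rw [integral_add (hi2.const_mul _) hi3, integral_const_mul, setIntegral_const, smul_eq_mul]
    have h14 : volume.real (St K 0 x J) = (volume (St K 0 x J)).toReal := rfl
    rw [h14, hSv]
    have h15 : 1 / q * ∫ u in St K 0 x J, (sm h F x u - m) ^ 2 ≤ 1 / q * (C2 * θ * x) :=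
      mul_le_mul_of_nonneg_left h7 (by positivity)
    have h16 : 1 / q * (C2 * θ * x) = C2 * θ1 * q * x := by
      rw [hθe]
      field_simp
    have h17 : (J.card : ℝ) * (K / Real.log x) * q ≤ x / 4 * q := mul_le_mul_of_nonneg_right hcard hq0.le
    have h18 : 0 ≤ x * q := by positivity
    nlinarith
  have h9 : |(∫ u in St K 0 x J, sm h F x u) - J.card * (K / Real.log x) * m| ≤ (C2 * θ1 + 1) * q * x := by
    rw [e1]
    exact (abs_integral_le_integral_abs).trans h8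
  calc |(∫ t in St K 0 x J, F x t) - J.card * (K / Real.log x) * m|
      = |((∫ t in St K 0 x J, F x t) - ∫ u in St K 0 x J, sm h F x u) +
          ((∫ u in St K 0 x J, sm h F x u) - J.card * (K / Real.log x) * m)| := by ring_nf
    _ ≤ C1 * θ1 ^ (-(1 / 2) : ℝ) * q * x + (C2 * θ1 + 1) * q * x := (abs_add_le _ _).trans (add_le_add h6 h9)
    _ = (C1 * θ1 ^ (-(1 / 2) : ℝ) + (C2 * θ1 + 1)) * q * x := by ring

end Pool.Agent.Helper69.ES
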