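import Pool.Agent.Helper69.ES.Easy

/-!
# ES: main theorem on the cells
-/

open MeasureTheory Set Filter Topology
open Pool.Agent.Helper57.Zeta Pool.Agent.Helper57.PC Pool.Agent.Helper57.LH Pool.Agent.Helper78.SG
open Pool.Agent.Helper4.SH Pool.Agent.Helper69.PP Pool.Agent.Helper22.SI
open Pool.Agent.Helper69.SM (wt)
open scoped Interval

namespace Pool.Agent.Helper69.ES

/-- M: few clear cells -/
theorem cells_main_of
    (part_cells : ∀ {c : ℝ}, 0 < c → ∀ (g f : TF), GoodG g → ∀ (F : ℝ → ℝ → ℝ), (∀ x, Continuous (F x)) →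
      Crude F → UIW g (fun x t => |F x t| * (1 + |pss f.h 2 x t|)) →
      (∀ᶠ x : ℝ in atTop, ∀ γ : ℝ, ∫ t in (γ - SM.hw c x)..(γ + SM.hw c x), F x t = ∫ t, F x t * krs f.h 2 x (t - γ)) →
      ∀ {ε : ℝ}, 0 < ε → ∃ D0 : ℝ, 0 < D0 ∧ ∀ D : ℝ, D0 ≤ D →
      ∃ K0 : ℝ, ∀ K : ℝ, K0 ≤ K → ∀ᶠ x : ℝ in atTop, ∀ J : Finset ℕ, InW K x J → Clear c K x J →
        |(∑ ρ ∈ IS K D x J, ∫ t in ((ρ : ℂ).im - SM.hw c x)..((ρ : ℂ).im + SM.hw c x), F x t) -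
          (f.h 0 * (∫ t in St K 0 x J, F x t) - ∫ t in St K 0 x J, F x t * pss f.h 2 x t)| ≤ ε * x)
    (upper_cells : ∀ {c : ℝ}, 0 < c → ∀ {F : ℝ → ℝ}, Continuous F → (∀ t, 0 ≤ F t) → ∀ {K D x : ℝ}, 1 < x →
      0 ≤ K → Real.pi * c ≤ D → ∀ {J : Finset ℕ}, InW K x J → Clear c K x J →
      ∑ ρ ∈ IS K D x J, (∫ t in ((ρ : ℂ).im - SM.hw c x)..((ρ : ℂ).im + SM.hw c x), F t) ≤ ∫ t in St K 0 x J, F t)
    (law_FF : ∀ (P : PQ.Par) (f : ℕ → TF), (∀ k ∈ PQ.KR P, PQ.KF P k (f k)) →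
      LLN (fun x t => PQ.FF P (x ^ ((1 : ℝ) / 2)) t) (fun x => PQ.AT P (x ^ ((1 : ℝ) / 2))))
    (law_FK : ∀ (P : PQ.Par) (f : ℕ → TF), (∀ k ∈ PQ.KR P, PQ.KF P k (f k)) →
      LLN (fun x t => ∑ k ∈ PQ.KR P, PQ.FK P k (x ^ ((1 : ℝ) / 2)) t * pss (f k).h 2 (x ^ ((1 : ℝ) / 2)) t)
        (fun x => - PQ.BT P (x ^ ((1 : ℝ) / 2))))
    (ui_FKW : ∀ (P : PQ.Par) (g : TF), GoodG g → ∀ {k : ℕ} {f : TF}, PQ.KF P k f →
      UIW g (fun x t => |PQ.FK P k (x ^ ((1 : ℝ) / 2)) t| * (1 + |pss f.h 2 (x ^ ((1 : ℝ) / 2)) t|)))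
    {c : ℝ} (hc : 0 < c) (hc1 : c < 1) (hcb : 103 ≤ c * (103 + 97 * (1 / 2))) (hcb1 : c * (1 / 2) ≤ 103 / 200)
    {δ : ℝ} (hδ : 0 < δ) : ∃ K : ℝ, 1 ≤ K ∧ ∀ᶠ x : ℝ in atTop, ∀ J : Finset ℕ, InW K x J → Clear c K x J →
      (J.card : ℝ) * (K / Real.log x) ≤ δ * x := by
  obtain ⟨P, hPc, hAR⟩ := Pool.Agent.Helper22.SI.arith (c' := c * (1 / 2)) (by positivity) hcb1
  obtain ⟨g, hg⟩ := exists_gg
  have hb : (0 : ℝ) < 1 / 2 := by norm_num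
  have hb1 : (1 : ℝ) / 2 ≤ 1 := by norm_num
  have hf' : ∀ k : ℕ, ∃ f : TF, k ∈ PQ.KR P → PQ.KF P k f := by
    intro k
    by_cases hk : k ∈ PQ.KR P
    · obtain ⟨f, hf⟩ := PQ.exists_KF P hk
      exact ⟨f, fun _ => hf⟩
    · exact ⟨g, fun h => absurd h hk⟩
  choose f hf using hf'
  have htd := tendsto_rpow_atTop hb
  obtain ⟨N, hN⟩ : ∃ N : ℝ, N = ((PQ.KR P).card : ℝ) + 2 := ⟨_, rfl⟩
  have hN0 : 0 < N := by rw [hN]; positivity
  obtain ⟨ε0, hε0e⟩ : ∃ ε0 : ℝ, ε0 = c * (1 / 2) / 515000 := ⟨_, rfl⟩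
  have hε0 : 0 < ε0 := by rw [hε0e]; positivity
  obtain ⟨ε, hεe⟩ : ∃ ε : ℝ, ε = δ * ε0 / N := ⟨_, rfl⟩
  have hε : 0 < ε := by rw [hεe]; positivity
  -- the parts
  have hpl : ∀ k : ℕ, ∃ D0 : ℝ, 0 < D0 ∧ (k ∈ PQ.KR P → ∀ D : ℝ, D0 ≤ D →
      ∃ K0 : ℝ, ∀ K : ℝ, K0 ≤ K → ∀ᶠ x : ℝ in atTop, ∀ J : Finset ℕ, InW K x J → Clear c K x J →
        |(∑ ρ ∈ IS K D x J, ∫ t in ((ρ : ℂ).im - SM.hw c x)..((ρ : ℂ).im + SM.hw c x), PQ.FK P k (x ^ ((1 : ℝ) / 2)) t) -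
          (c * (∫ t in St K 0 x J, PQ.FK P k (x ^ ((1 : ℝ) / 2)) t) -
            ∫ t in St K 0 x J, PQ.FK P k (x ^ ((1 : ℝ) / 2)) t * pss (f k).h 2 (x ^ ((1 : ℝ) / 2)) t)| ≤ ε * x) := by
    intro k
    by_cases hk : k ∈ PQ.KR P
    · have hkf := hf k hk
      have hui := ui_FKW P g hg hkf
      have hui' : UIW g (fun x t => |PQ.FK P k (x ^ ((1 : ℝ) / 2)) t| *
          (1 + |pss (Pool.Agent.Helper22.SI.scl (f k) (1 / 2) hb hb1).h 2 x t|)) := by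
        obtain ⟨⟨C, hC, h1⟩, h2⟩ := hui
        refine ⟨⟨C, hC, ?_⟩, fun e he => ?_⟩
        · filter_upwards [h1, eventually_gt_atTop 1] with x hx hx1
          simp only [Pool.Agent.Helper22.SI.scl_pss (f k) hb hb1 hx1]
          exact hx
        · obtain ⟨η, hη, h3⟩ := h2 e he
          refine ⟨η, hη, ?_⟩
          filter_upwards [h3, eventually_gt_atTop 1] with x hx hx1 B hB hvB
          simp only [Pool.Agent.Helper22.SI.scl_pss (f k) hb hb1 hx1]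
          exact hx B hB hvB
      have hcr : Crude (fun x t => PQ.FK P k (x ^ ((1 : ℝ) / 2)) t) := by
        obtain ⟨κ, C0, hκ, h1⟩ := PQ.SI.crude_b (F := PQ.FK P k) (by
          filter_upwards [PQ.FK_crude P] with T hT t
          exact hT k t) hb
        refine ⟨κ, max C0 1, lt_max_of_lt_right one_pos, by linarith, ?_⟩
        filter_upwards [h1, eventually_gt_atTop (0 : ℝ)] with x hx hx0 t
        exact (hx t).trans (mul_le_mul_of_nonneg_right (le_max_left _ _) (Real.rpow_nonneg hx0.le _))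
      obtain ⟨D0, hD0, h⟩ := part_cells hc g (Pool.Agent.Helper22.SI.scl (f k) (1 / 2) hb hb1) hg
        (fun x t => PQ.FK P k (x ^ ((1 : ℝ) / 2)) t) (fun T => PQ.FK_cont P k (T ^ ((1 : ℝ) / 2))) hcr hui' (by
          filter_upwards [eventually_gt_atTop 1] with x hx γ
          have h1 := PQ.window_FK hkf (Real.one_lt_rpow hx hb) γ
          rw [PQ.SI.hw_eq hb hx hPc] at h1
          rw [h1]
          refine integral_congr_ae (Eventually.of_forall fun t => ?_)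
          simp only
          rw [Pool.Agent.Helper22.SI.scl_krs (f k) hb hb1 2 (by linarith)]) hε
      refine ⟨D0, hD0, fun _ D hD => ?_⟩
      obtain ⟨K0, h⟩ := h D hD
      refine ⟨K0, fun K hK => ?_⟩
      have h0 : (Pool.Agent.Helper22.SI.scl (f k) (1 / 2) hb hb1).h 0 = c := by
        rw [Pool.Agent.Helper22.SI.scl_zero, PQ.KF_zero hkf, hPc]
        field_simp
      filter_upwards [h K hK, eventually_gt_atTop 1] with x hx hx1 J hJ hcl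
      have h2 := hx J hJ hcl
      rw [h0] at h2
      simp only [Pool.Agent.Helper22.SI.scl_pss (f k) hb hb1 hx1] at h2
      exact h2
    · exact ⟨1, one_pos, fun h => absurd h hk⟩
  choose D0 hD0 hlow using hpl
  obtain ⟨D, hDe⟩ : ∃ D : ℝ, D = Real.pi * c + ∑ k ∈ PQ.KR P, D0 k := ⟨_, rfl⟩
  have hpi : 0 < Real.pi * c := by positivity
  have hDc : Real.pi * c ≤ D := by
    rw [hDe]
    have : 0 ≤ ∑ k ∈ PQ.KR P, D0 k := Finset.sum_nonneg fun k _ => (hD0 k).le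
    linarith
  have hDk : ∀ k ∈ PQ.KR P, D0 k ≤ D := by
    intro k hk
    rw [hDe]
    have := Finset.single_le_sum (f := D0) (fun k _ => (hD0 k).le) hk
    linarith
  have hK' : ∀ k : ℕ, ∃ K0 : ℝ, k ∈ PQ.KR P → ∀ K : ℝ, K0 ≤ K → ∀ᶠ x : ℝ in atTop, ∀ J : Finset ℕ, InW K x J → Clear c K x J →
        |(∑ ρ ∈ IS K D x J, ∫ t in ((ρ : ℂ).im - SM.hw c x)..((ρ : ℂ).im + SM.hw c x), PQ.FK P k (x ^ ((1 : ℝ) / 2)) t) -
          (c * (∫ t in St K 0 x J, PQ.FK P k (x ^ ((1 : ℝ) / 2)) t) -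
            ∫ t in St K 0 x J, PQ.FK P k (x ^ ((1 : ℝ) / 2)) t * pss (f k).h 2 (x ^ ((1 : ℝ) / 2)) t)| ≤ ε * x := by
    intro k
    by_cases hk : k ∈ PQ.KR P
    · obtain ⟨K0, h⟩ := hlow k hk D (hDk k hk)
      exact ⟨K0, fun _ => h⟩
    · exact ⟨0, fun h => absurd h hk⟩
  choose K1 hK1 using hK'
  obtain ⟨KA, hKA⟩ := law_FF P f hf ε hε
  obtain ⟨KB, hKB⟩ := law_FK P f hf ε hε
  obtain ⟨K, hKe⟩ : ∃ K : ℝ, K = 1 + |KA| + |KB| + ∑ k ∈ PQ.KR P, |K1 k| := ⟨_, rfl⟩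
  have hs0 : 0 ≤ ∑ k ∈ PQ.KR P, |K1 k| := Finset.sum_nonneg fun k _ => abs_nonneg _
  have hK1' : 1 ≤ K := by
    rw [hKe]
    linarith [abs_nonneg KA, abs_nonneg KB]
  have hKKA : KA ≤ K := by
    rw [hKe]
    linarith [le_abs_self KA, abs_nonneg KB]
  have hKKB : KB ≤ K := by
    rw [hKe]
    linarith [le_abs_self KB, abs_nonneg KA]
  have hKk : ∀ k ∈ PQ.KR P, K1 k ≤ K := by
    intro k hk
    rw [hKe]
    have : |K1 k| ≤ ∑ k ∈ PQ.KR P, |K1 k| :=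
      Finset.single_le_sum (f := fun k => |K1 k|) (fun k _ => abs_nonneg _) hk
    linarith [le_abs_self (K1 k), abs_nonneg KA, abs_nonneg KB]
  refine ⟨K, hK1', ?_⟩
  have hall : ∀ᶠ x : ℝ in atTop, ∀ k ∈ PQ.KR P, ∀ J : Finset ℕ, InW K x J → Clear c K x J →
        |(∑ ρ ∈ IS K D x J, ∫ t in ((ρ : ℂ).im - SM.hw c x)..((ρ : ℂ).im + SM.hw c x), PQ.FK P k (x ^ ((1 : ℝ) / 2)) t) -
          (c * (∫ t in St K 0 x J, PQ.FK P k (x ^ ((1 : ℝ) / 2)) t) -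
            ∫ t in St K 0 x J, PQ.FK P k (x ^ ((1 : ℝ) / 2)) t * pss (f k).h 2 (x ^ ((1 : ℝ) / 2)) t)| ≤ ε * x := by
    rw [Filter.eventually_all_finset]
    exact fun k hk => hK1 k hk K (hKk k hk)
  filter_upwards [hall, hKA K hKKA, hKB K hKKB, htd.eventually hAR, htd.eventually (PQ.AT_one_le P),
    eventually_gt_atTop 1] with x h1 h2 h3 h5' h6 hx J hJ hcl
  have hx0 : 0 < x := by linarith
  have hL : 0 < Real.log x := Real.log_pos hx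
  obtain ⟨U, hU⟩ : ∃ U : ℝ, U = x ^ ((1 : ℝ) / 2) := ⟨_, rfl⟩
  have h2' := h2 J hJ
  have h3' := h3 J hJ
  have h1' := fun k hk => h1 k hk J hJ hcl
  simp only [← hU] at h1' h2' h3' h5' h6
  obtain ⟨V, hV⟩ : ∃ V : ℝ, V = J.card * (K / Real.log x) := ⟨_, rfl⟩
  have hV0 : 0 ≤ V := by rw [hV]; positivity
  rw [← hV] at h2' h3' ⊢
  have hSsub := St_sub (K := K) (D := 0) hx (by linarith) le_rfl hJ
  have hio : ∀ G : ℝ → ℝ, Continuous G → IntegrableOn G (St K 0 x J) := fun G hG =>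
    (hG.integrableOn_Icc).mono_set hSsub
  have hup := upper_cells hc (F := fun t => PQ.FF P U t) (PQ.FF_cont P U) (fun t => PQ.FF_nonneg P U t) hx
    (by linarith : 0 ≤ K) hDc hJ hcl
  have hsum : ∫ t in St K 0 x J, PQ.FF P U t = ∑ k ∈ PQ.KR P, ∫ t in St K 0 x J, PQ.FK P k U t := by
    rw [← integral_finsetSum _ (fun k _ => hio _ (PQ.FK_cont P k U))]
    refine integral_congr_ae (Eventually.of_forall fun t => ?_)
    simp only [PQ.FF_eq]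
  have hsum2 : ∫ t in St K 0 x J, (∑ k ∈ PQ.KR P, PQ.FK P k U t * pss (f k).h 2 U t) =
      ∑ k ∈ PQ.KR P, ∫ t in St K 0 x J, PQ.FK P k U t * pss (f k).h 2 U t := by
    exact integral_finsetSum _ (fun k _ => hio (fun t => PQ.FK P k U t * pss (f k).h 2 U t)
      ((PQ.FK_cont P k U).mul (pss_cont _ 2 U)))
  have hwsum : ∑ ρ ∈ IS K D x J, (∫ t in ((ρ : ℂ).im - SM.hw c x)..((ρ : ℂ).im + SM.hw c x), PQ.FF P U t) =
      ∑ k ∈ PQ.KR P, ∑ ρ ∈ IS K D x J, (∫ t in ((ρ : ℂ).im - SM.hw c x)..((ρ : ℂ).im + SM.hw c x), PQ.FK P k U t) := by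
    rw [Finset.sum_comm]
    refine Finset.sum_congr rfl fun ρ _ => ?_
    rw [← intervalIntegral.integral_finsetSum]
    · refine intervalIntegral.integral_congr fun t _ => ?_
      simp only [PQ.FF_eq]
    · intro k _
      exact (PQ.FK_cont P k U).intervalIntegrable _ _
  rw [hwsum] at hup
  have hlow' : c * (∫ t in St K 0 x J, PQ.FF P U t) - (∑ k ∈ PQ.KR P, ∫ t in St K 0 x J, PQ.FK P k U t * pss (f k).h 2 U t) -
      (PQ.KR P).card * (ε * x) ≤ ∑ k ∈ PQ.KR P, ∑ ρ ∈ IS K D x J,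
        (∫ t in ((ρ : ℂ).im - SM.hw c x)..((ρ : ℂ).im + SM.hw c x), PQ.FK P k U t) := by
    rw [hsum, Finset.mul_sum, ← nsmul_eq_mul, ← Finset.sum_const, ← Finset.sum_sub_distrib, ← Finset.sum_sub_distrib]
    refine Finset.sum_le_sum fun k hk => ?_
    have := (abs_le.mp (h1' k hk)).1
    linarith
  rw [hsum2] at h3'
  obtain ⟨I0, hI0⟩ : ∃ I0 : ℝ, I0 = ∫ t in St K 0 x J, PQ.FF P U t := ⟨_, rfl⟩
  obtain ⟨G0, hG0⟩ : ∃ G0 : ℝ, G0 = ∑ k ∈ PQ.KR P, ∫ t in St K 0 x J, PQ.FK P k U t * pss (f k).h 2 U t := ⟨_, rfl⟩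
  rw [← hI0] at hup hlow' h2'
  rw [← hG0] at hlow' h3'
  have e2 := abs_le.mp h2'
  have e3 := abs_le.mp h3'
  have hAT0 : 0 ≤ PQ.AT P U := by linarith
  have h5 : (1 - c + ε0) * PQ.AT P U ≤ PQ.BT P U := by
    refine le_trans (mul_le_mul_of_nonneg_right ?_ hAT0) h5'
    rw [hε0e]
    linarith
  have hI : (1 - c) * I0 ≤ (1 - c) * (V * PQ.AT P U + ε * x) :=
    mul_le_mul_of_nonneg_left (by linarith [e2.2]) (by linarith)
  have hkey : V * ((1 - c + ε0) * PQ.AT P U) ≤ V * PQ.BT P U := mul_le_mul_of_nonneg_left h5 hV0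
  have hεx : 0 ≤ ε * x := by positivity
  have h7 : (1 - c) * (ε * x) ≤ 1 * (ε * x) := mul_le_mul_of_nonneg_right (by linarith) hεx
  have hfin : V * (ε0 * PQ.AT P U) ≤ N * (ε * x) := by
    rw [hN]
    nlinarith [e3.1, e3.2, hup, hlow', hI, hkey]
  have h9 : V * ε0 ≤ V * (ε0 * PQ.AT P U) := by
    have h10 : 0 ≤ V * ε0 := by positivity
    nlinarith
  have h11 : N * (ε * x) = δ * x * ε0 := by
    rw [hεe]
    field_simp
  have h12 : V * ε0 ≤ δ * x * ε0 := by linarith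
  exact le_of_mul_le_mul_right h12 hε0

end Pool.Agent.Helper69.ES
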